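import Mathlib

/-!
# The matroid median problem needs exponentially many rank-oracle calls
-/

namespace Pool.Agent.Results.MP_8f56b8_lc.ExponentialLowerBound

open Finset

/-- A deterministic adaptive query algorithm: it either stops with an output, or asks a question
`q` and continues depending on the answer. -/
inductive QueryAlg (Q A Out : Type) : Type
  | output (o : Out) : QueryAlg Q A Out
  | query (q : Q) (next : A → QueryAlg Q A Out) : QueryAlg Q A Out

namespace QueryAlg

variable {Q A Out : Type}

/-- The output of the algorithm when the oracle answers according to `f`. -/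
def run : QueryAlg Q A Out → (Q → A) → Out
  | output o, _ => o
  | query q next, f => (next (f q)).run f

/-- The number of oracle calls made when the oracle answers according to `f`. -/
def calls : QueryAlg Q A Out → (Q → A) → ℕ
  | output _, _ => 0
  | query q next, f => (next (f q)).calls f + 1

end QueryAlg

/-- The (natural-number valued) rank function of a matroid on `Fin n`. -/
noncomputable def rk {n : ℕ} (M : Matroid (Fin n)) (X : Finset (Fin n)) : ℕ :=
  (M.eRk (X : Set (Fin n))).toNat

/-- The objective `Φ(H) = 2 ∑ r(F_i ∪ H) - k r(H)` of the matroid median problem, for the list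
`F = [F_1, …, F_k]`. -/
noncomputable def Phi {n : ℕ} (M : Matroid (Fin n)) (F : List (Finset (Fin n)))
    (H : Finset (Fin n)) : ℤ :=
  2 * (F.map fun Fi => (rk M (Fi ∪ H) : ℤ)).sum - (F.length : ℤ) * (rk M H : ℤ)

/-- `H` is a solution of the matroid median problem for `M` and `F`. -/
def IsSolution {n : ℕ} (M : Matroid (Fin n)) (F : List (Finset (Fin n)))
    (H : Finset (Fin n)) : Prop :=
  ∀ H' : Finset (Fin n), Phi M F H ≤ Phi M F H'

/-- An algorithm for the matroid median problem: from the size `n` of the ground set `Fin n` and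
the explicitly given list `F` it produces an adaptive procedure querying a rank oracle and
outputting a subset of the ground set.  (No computability is required.) -/
abbrev MedianAlg : Type :=
  (n : ℕ) → List (Finset (Fin n)) → QueryAlg (Finset (Fin n)) ℕ (Finset (Fin n))

/-- The algorithm solves the matroid median problem for every matroid and every list of sets. -/
def Solves (alg : MedianAlg) : Prop :=
  ∀ (n : ℕ) (M : Matroid (Fin n)), M.E = Set.univ → ∀ F : List (Finset (Fin n)),
    IsSolution M F ((alg n F).run (rk M))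

section Matroid

variable {n : ℕ}

/-- independence predicate of the hard matroids: `P` is the set of hidden nonbases -/
def Ind (t : ℕ) (F1 : Finset (Fin n)) (P : Finset (Fin n) → Prop) (I : Finset (Fin n)) : Prop :=
  (I ∩ F1).card ≤ t + 1 ∧ I.card ≤ 2 * t + 1 ∧ ¬ P I

/-- The hidden family is admissible. -/
structure Adm (t : ℕ) (F1 F2 : Finset (Fin n)) (P : Finset (Fin n) → Prop) : Prop where
  disj : Disjoint F1 F2
  univ : F1 ∪ F2 = Finset.univ
  c1 : F1.card = 2 * t
  c2 : F2.card = t + 1
  tpos : 1 ≤ t
  uniq : ∀ X Y, P X → P Y → X = Y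
  size : ∀ X, P X → X.card = 2 * t + 1
  inter : ∀ X, P X → (X ∩ F1).card = t
  sub : ∀ X, P X → F2 ⊆ X

lemma card_split {t : ℕ} {F1 F2 : Finset (Fin n)} {P} (h : Adm t F1 F2 P) (X : Finset (Fin n)) :
    X.card = (X ∩ F1).card + (X ∩ F2).card := by
  rw [← Finset.card_union_of_disjoint, ← Finset.inter_union_distrib_left, h.univ,
    Finset.inter_univ]
  exact h.disj.mono Finset.inter_subset_right Finset.inter_subset_right

lemma aug {t : ℕ} {F1 F2 : Finset (Fin n)} {P} (h : Adm t F1 F2 P) {I J : Finset (Fin n)}
    (hI : Ind t F1 P I) (hJ : Ind t F1 P J) (hIJ : I.card < J.card) :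
    ∃ e ∈ J, e ∉ I ∧ Ind t F1 P (insert e I) := by
  classical
  -- first find an element that keeps the cardinality conditions
  have key : ∃ e ∈ J, e ∉ I ∧ (insert e I ∩ F1).card ≤ t + 1 := by
    by_cases h2 : ∃ e ∈ J, e ∉ I ∧ e ∈ F2
    · obtain ⟨e, heJ, heI, he2⟩ := h2
      refine ⟨e, heJ, heI, ?_⟩
      have he1 : e ∉ F1 := fun h1 => (Finset.disjoint_left.mp h.disj) h1 he2
      rw [Finset.insert_inter_of_notMem he1]
      exact hI.1
    · push Not at h2
      have hsub : J ∩ F2 ⊆ I ∩ F2 := by
        intro e he
        rw [Finset.mem_inter] at he ⊢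
        refine ⟨?_, he.2⟩
        by_contra hne
        exact h2 e he.1 hne he.2
      have hc := Finset.card_le_card hsub
      have hlt : (I ∩ F1).card < (J ∩ F1).card := by
        have := card_split h I
        have := card_split h J
        omega
      obtain ⟨e, heJ, heI⟩ : ∃ e ∈ J ∩ F1, e ∉ I ∩ F1 := by
        by_contra hcon
        push Not at hcon
        exact absurd (Finset.card_le_card hcon) (by omega)
      rw [Finset.mem_inter] at heJ
      have heI' : e ∉ I := fun h' => heI (Finset.mem_inter.mpr ⟨h', heJ.2⟩)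
      refine ⟨e, heJ.1, heI', ?_⟩
      rw [Finset.insert_inter_of_mem heJ.2, Finset.card_insert_of_notMem heI]
      have := hJ.1
      omega
  obtain ⟨e, heJ, heI, hcard⟩ := key
  by_cases hP : P (insert e I)
  · -- the new set is the hidden nonbasis: choose another element
    have hsz := h.size _ hP
    rw [Finset.card_insert_of_notMem heI] at hsz
    have hJc : J.card = 2 * t + 1 := by have := hJ.2.1; omega
    have hne : ¬ J ⊆ insert e I := by
      intro hsub
      have : J = insert e I := by
        apply Finset.eq_of_subset_of_card_le hsub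
        rw [h.size _ hP]; omega
      rw [this] at hJ
      exact hJ.2.2 hP
    obtain ⟨f, hfJ, hf⟩ := Finset.not_subset.mp hne
    have hfI : f ∉ I := fun h' => hf (Finset.mem_insert_of_mem h')
    refine ⟨f, hfJ, hfI, ?_, ?_, ?_⟩
    · have h1 : insert f I ∩ F1 ⊆ insert f (insert e I ∩ F1) := by
        intro x hx
        simp only [Finset.mem_inter, Finset.mem_insert] at hx ⊢
        tauto
      have h2 := Finset.card_le_card h1
      have h3 := Finset.card_insert_le f (insert e I ∩ F1)
      have h4 := h.inter _ hP
      omega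
    · rw [Finset.card_insert_of_notMem hfI]; omega
    · intro hP'
      have := h.uniq _ _ hP hP'
      apply hf
      rw [this]
      exact Finset.mem_insert_self f I
  · refine ⟨e, heJ, heI, hcard, ?_, hP⟩
    rw [Finset.card_insert_of_notMem heI]
    have := hJ.2.1
    omega

/-- The hard matroid. -/
noncomputable def hardIM (t : ℕ) (F1 F2 : Finset (Fin n)) (P : Finset (Fin n) → Prop)
    (h : Adm t F1 F2 P) : IndepMatroid (Fin n) :=
  IndepMatroid.ofFinset Set.univ (Ind t F1 P)
    (by
      refine ⟨by simp, by simp, fun hP => ?_⟩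
      have := h.size _ hP
      simp at this)
    (by
      intro I J hJ hIJ
      refine ⟨(Finset.card_le_card (Finset.inter_subset_inter_right hIJ)).trans hJ.1,
        (Finset.card_le_card hIJ).trans hJ.2.1, fun hP => ?_⟩
      have h1 := h.size _ hP
      have h2 : I = J := Finset.eq_of_subset_of_card_le hIJ (by have := hJ.2.1; omega)
      rw [h2] at hP
      exact hJ.2.2 hP)
    (by
      intro I J hI hJ hIJ
      exact aug h hI hJ hIJ)
    (by intro I _; exact Set.subset_univ _)

lemma hardIM_indep {t : ℕ} {F1 F2 : Finset (Fin n)} {P} (h : Adm t F1 F2 P)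
    (I : Finset (Fin n)) : (hardIM t F1 F2 P h).matroid.Indep (I : Set (Fin n)) ↔ Ind t F1 P I := by
  unfold hardIM
  rw [IndepMatroid.matroid_Indep]
  exact IndepMatroid.ofFinset_indep _ _ _ _ _ _

lemma rk_eq {t : ℕ} {F1 F2 : Finset (Fin n)} {P} (h : Adm t F1 F2 P) (X : Finset (Fin n)) (k : ℕ)
    (hle : ∀ I : Finset (Fin n), I ⊆ X → Ind t F1 P I → I.card ≤ k)
    (hge : ∃ I : Finset (Fin n), I ⊆ X ∧ Ind t F1 P I ∧ I.card = k) :
    rk (hardIM t F1 F2 P h).matroid X = k := by
  classical
  have h1 : (hardIM t F1 F2 P h).matroid.eRk (X : Set (Fin n)) = (k : ℕ∞) := by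
    apply le_antisymm
    · rw [Matroid.eRk_le_iff]
      intro I hIX hI
      have hfin : I.Finite := Set.toFinite I
      have hc : ((hfin.toFinset : Finset (Fin n)) : Set (Fin n)) = I := hfin.coe_toFinset
      rw [← hc] at hI hIX ⊢
      rw [hardIM_indep h] at hI
      rw [Set.encard_coe_eq_coe_finsetCard]
      exact_mod_cast hle _ (by exact_mod_cast hIX) hI
    · rw [Matroid.le_eRk_iff]
      obtain ⟨I, hIX, hI, hc⟩ := hge
      refine ⟨(I : Set (Fin n)), by exact_mod_cast hIX, (hardIM_indep h I).mpr hI, ?_⟩
      rw [Set.encard_coe_eq_coe_finsetCard, hc]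
  unfold rk
  rw [h1]
  simp

/-- rank of a set which is not the hidden nonbasis -/
lemma rk_of_not {t : ℕ} {F1 F2 : Finset (Fin n)} {P} (h : Adm t F1 F2 P) (X : Finset (Fin n))
    (hX : ¬ P X) :
    rk (hardIM t F1 F2 P h).matroid X
      = min (min (X ∩ F1).card (t + 1) + (X ∩ F2).card) (2 * t + 1) := by
  classical
  apply rk_eq h
  · intro I hIX hI
    have h1 := card_split h I
    have h2 := Finset.card_le_card (Finset.inter_subset_inter_right hIX (u := F1))
    have h3 := Finset.card_le_card (Finset.inter_subset_inter_right hIX (u := F2))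
    have h4 := hI.1
    have h5 := hI.2.1
    omega
  · obtain ⟨I1, hI1, hI1c⟩ := Finset.exists_subset_card_eq
      (show min (X ∩ F1).card (t + 1) ≤ (X ∩ F1).card from min_le_left _ _)
    have hd : Disjoint I1 (X ∩ F2) :=
      (h.disj.mono_left (hI1.trans Finset.inter_subset_right)).mono_right Finset.inter_subset_right
    have hJc : (I1 ∪ (X ∩ F2)).card = min (X ∩ F1).card (t + 1) + (X ∩ F2).card := by
      rw [Finset.card_union_of_disjoint hd, hI1c]
    obtain ⟨I, hIJ, hIc⟩ := Finset.exists_subset_card_eq
      (show min (I1 ∪ (X ∩ F2)).card (2 * t + 1) ≤ (I1 ∪ (X ∩ F2)).card from min_le_left _ _)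
    have hIX : I ⊆ X := by
      refine hIJ.trans (Finset.union_subset (hI1.trans Finset.inter_subset_left)
        Finset.inter_subset_left)
    have hIF1 : I ∩ F1 ⊆ I1 := by
      intro x hx
      rw [Finset.mem_inter] at hx
      rcases Finset.mem_union.mp (hIJ hx.1) with h' | h'
      · exact h'
      · exact absurd (Finset.mem_inter.mp h').2 (Finset.disjoint_left.mp h.disj hx.2)
    have hIF1c : (I ∩ F1).card ≤ t + 1 := by
      have := Finset.card_le_card hIF1
      omega
    by_cases hP : P I
    · have hne : ¬ X ⊆ I := fun hsub => by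
        have : I = X := Finset.Subset.antisymm hIX hsub
        rw [this] at hP
        exact hX hP
      obtain ⟨f, hfX, hfI⟩ := Finset.not_subset.mp hne
      have hfF2 : f ∉ F2 := fun h' => hfI (h.sub _ hP h')
      have hint := h.inter _ hP
      have htp := h.tpos
      have hnon : (I ∩ F1).Nonempty := by
        rw [← Finset.card_pos]; omega
      obtain ⟨a, ha⟩ := hnon
      rw [Finset.mem_inter] at ha
      have hsz := h.size _ hP
      refine ⟨insert f (I.erase a), ?_, ⟨?_, ?_, ?_⟩, ?_⟩
      · intro x hx
        rcases Finset.mem_insert.mp hx with h' | h'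
        · rw [h']; exact hfX
        · exact hIX (Finset.mem_of_mem_erase h')
      · have h1 : insert f (I.erase a) ∩ F1 ⊆ insert f (I ∩ F1) := by
          intro x hx
          simp only [Finset.mem_inter, Finset.mem_insert, Finset.mem_erase] at hx ⊢
          tauto
        have h2 := Finset.card_le_card h1
        have h3 := Finset.card_insert_le f (I ∩ F1)
        omega
      · have h1 := Finset.card_insert_le f (I.erase a)
        have h2 := Finset.card_erase_of_mem ha.1
        omega
      · intro hP'
        have := h.uniq _ _ hP hP'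
        apply hfI
        rw [this]
        exact Finset.mem_insert_self f _
      · rw [Finset.card_insert_of_notMem (fun h' => hfI (Finset.mem_of_mem_erase h')),
          Finset.card_erase_of_mem ha.1]
        rw [hJc] at hIc
        omega
    · refine ⟨I, hIX, ⟨hIF1c, by omega, hP⟩, ?_⟩
      rw [hIc, hJc]

/-- rank of the hidden nonbasis -/
lemma rk_of {t : ℕ} {F1 F2 : Finset (Fin n)} {P} (h : Adm t F1 F2 P) (X : Finset (Fin n))
    (hX : P X) : rk (hardIM t F1 F2 P h).matroid X = 2 * t := by
  classical
  apply rk_eq h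
  · intro I hIX hI
    by_contra hcon
    have h1 := h.size _ hX
    have h2 := hI.2.1
    have : I = X := Finset.eq_of_subset_of_card_le hIX (by omega)
    rw [this] at hI
    exact hI.2.2 hX
  · have hint := h.inter _ hX
    have htp := h.tpos
    have hnon : (X ∩ F1).Nonempty := by
      rw [← Finset.card_pos]; omega
    obtain ⟨a, ha⟩ := hnon
    rw [Finset.mem_inter] at ha
    have hsz := h.size _ hX
    refine ⟨X.erase a, Finset.erase_subset _ _, ⟨?_, ?_, ?_⟩, ?_⟩
    · have h1 : X.erase a ∩ F1 ⊆ X ∩ F1 :=
        Finset.inter_subset_inter_right (Finset.erase_subset _ _)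
      have h2 := Finset.card_le_card h1
      omega
    · have h2 := Finset.card_erase_of_mem ha.1
      omega
    · intro hP'
      have := h.uniq _ _ hX hP'
      have h3 : a ∈ X.erase a := by rw [← this]; exact ha.1
      simp at h3
    · rw [Finset.card_erase_of_mem ha.1]
      omega

/-- The list of sets of the hard instance. -/
def hardList (t : ℕ) (F1 F2 : Finset (Fin n)) : List (Finset (Fin n)) :=
  List.replicate (t + 1) F1 ++ List.replicate (t + 1) F2 ++ [∅]

lemma Phi_hard (M : Matroid (Fin n)) (t : ℕ) (F1 F2 H : Finset (Fin n)) :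
    Phi M (hardList t F1 F2) H
      = 2 * ((t : ℤ) + 1) * ((rk M (F1 ∪ H) : ℤ) + rk M (F2 ∪ H) - rk M H) + rk M H := by
  unfold Phi hardList
  simp
  ring

lemma submod (M : Matroid (Fin n)) (X Y : Finset (Fin n)) :
    rk M (X ∩ Y) + rk M (X ∪ Y) ≤ rk M X + rk M Y := by
  have h := M.eRk_inter_add_eRk_union_le (X : Set (Fin n)) (Y : Set (Fin n))
  have hfin : ∀ Z : Finset (Fin n), M.eRk (Z : Set (Fin n)) = ((rk M Z : ℕ) : ℕ∞) := by
    intro Z
    unfold rk
    rw [ENat.natCast_toNat]
    have := M.eRk_le_encard (Z : Set (Fin n))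
    rw [Set.encard_coe_eq_coe_finsetCard] at this
    exact ne_top_of_le_ne_top (ENat.natCast_ne_top _) this
  rw [← Finset.coe_inter, ← Finset.coe_union, hfin, hfin, hfin, hfin] at h
  exact_mod_cast h

/-- The unique solution of the hard instance is the hidden set `A`. -/
lemma solution_eq {t : ℕ} {F1 F2 A : Finset (Fin n)}
    (h : Adm t F1 F2 (fun X => X = A ∪ F2)) (hA : A ⊆ F1) (hAc : A.card = t)
    {H : Finset (Fin n)}
    (hH : IsSolution (hardIM t F1 F2 _ h).matroid (hardList t F1 F2) H) : H = A := by
  classical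
  by_contra hne
  set M := (hardIM t F1 F2 _ h).matroid with hM
  have htp := h.tpos
  have hAF2 : A ∩ F2 = ∅ := Finset.disjoint_iff_inter_eq_empty.mp (h.disj.mono_left hA)
  have hAF1 : A ∩ F1 = A := Finset.inter_eq_left.mpr hA
  have hF12 : F1 ∩ F2 = ∅ := Finset.disjoint_iff_inter_eq_empty.mp h.disj
  have hF21 : F2 ∩ F1 = ∅ := by rw [Finset.inter_comm]; exact hF12
  have c1 := h.c1
  have c2 := h.c2
  -- value at `A`
  have hA1 : rk M (F1 ∪ A) = t + 1 := by
    rw [Finset.union_eq_left.mpr hA, rk_of_not h]
    · rw [Finset.inter_self, hF12, c1, Finset.card_empty]; omega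
    · intro he
      have : (F1 ∩ F1).card = ((A ∪ F2) ∩ F1).card := by rw [← he]
      rw [Finset.union_inter_distrib_right, hAF1, hF21, Finset.union_empty, Finset.inter_self] at this
      omega
  have hA2 : rk M (F2 ∪ A) = 2 * t := rk_of h _ (by rw [Finset.union_comm])
  have hA3 : rk M A = t := by
    rw [rk_of_not h, hAF1, hAF2, Finset.card_empty, hAc]
    · omega
    · intro he
      have : A.card = (A ∪ F2).card := by rw [← he]
      rw [Finset.card_union_of_disjoint (h.disj.mono_left hA)] at this
      omega
  have hPA := Phi_hard M t F1 F2 A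
  rw [hA1, hA2, hA3] at hPA
  have hPH := Phi_hard M t F1 F2 H
  have hle := hH A
  rw [hPA, hPH] at hle
  -- submodularity at `H`
  have huniv : rk M (Finset.univ : Finset (Fin n)) = 2 * t + 1 := by
    rw [rk_of_not h, Finset.univ_inter, Finset.univ_inter, c1, c2]
    · omega
    · intro he
      have : ((Finset.univ : Finset (Fin n)) ∩ F1).card = ((A ∪ F2) ∩ F1).card := by rw [← he]
      rw [Finset.union_inter_distrib_right, hAF1, hF21, Finset.union_empty,
        Finset.univ_inter] at this
      omega
  have hsub := submod M (F1 ∪ H) (F2 ∪ H)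
  have e1 : (F1 ∪ H) ∩ (F2 ∪ H) = H := by
    rw [← Finset.inter_union_distrib_right, hF12, Finset.empty_union]
  have e2 : (F1 ∪ H) ∪ (F2 ∪ H) = Finset.univ := by
    rw [Finset.union_union_union_comm, h.univ]
    exact top_sup_eq _
  rw [e1, e2, huniv] at hsub
  -- case analysis
  by_cases hr : rk M H ≤ t
  · have hnP : ¬ (H = A ∪ F2) := by
      intro he
      rw [rk_of h H he] at hr
      omega
    have hrH := rk_of_not h H hnP
    rw [← hM] at hrH
    have hr1 : rk M (F1 ∪ H) = t + 1 + (H ∩ F2).card := by
      rw [rk_of_not h]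
      · rw [Finset.union_inter_distrib_right, Finset.union_inter_distrib_right, hF12,
          Finset.empty_union, Finset.inter_self,
          Finset.union_eq_left.mpr (Finset.inter_subset_right : H ∩ F1 ⊆ F1), c1]
        omega
      · intro he
        have : ((F1 ∪ H) ∩ F1).card = ((A ∪ F2) ∩ F1).card := by rw [← he]
        rw [Finset.union_inter_distrib_right, Finset.union_inter_distrib_right, hAF1, hF21,
          Finset.union_empty, Finset.inter_self,
          Finset.union_eq_left.mpr (Finset.inter_subset_right : H ∩ F1 ⊆ F1)] at this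
        omega
    have hr2 : rk M (F2 ∪ H) = t + 1 + (H ∩ F1).card := by
      rw [rk_of_not h]
      · rw [Finset.union_inter_distrib_right, Finset.union_inter_distrib_right, hF21,
          Finset.empty_union, Finset.inter_self,
          Finset.union_eq_left.mpr (Finset.inter_subset_right : H ∩ F2 ⊆ F2), c2]
        omega
      · intro he
        have hHA : H ∩ F1 = A := by
          have : (F2 ∪ H) ∩ F1 = (A ∪ F2) ∩ F1 := by rw [he]
          rw [Finset.union_inter_distrib_right, Finset.union_inter_distrib_right, hAF1, hF21,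
            Finset.union_empty, Finset.empty_union] at this
          exact this
        have hc0 : (H ∩ F2).card = 0 := by
          have : (H ∩ F1).card = t := by rw [hHA, hAc]
          omega
        apply hne
        have hsp : H = (H ∩ F1) ∪ (H ∩ F2) := by
          rw [← Finset.inter_union_distrib_left, h.univ, Finset.inter_univ]
        rw [Finset.card_eq_zero] at hc0
        rw [hsp, hc0, hHA, Finset.union_empty]
    rw [hr1, hr2] at hle
    have hrH' : rk M H = (H ∩ F1).card + (H ∩ F2).card := by omega
    rw [hrH'] at hle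
    push_cast at hle
    nlinarith
  · push Not at hr
    have h1 : (2 * (t : ℤ) + 1) ≤ (rk M (F1 ∪ H) : ℤ) + rk M (F2 ∪ H) - rk M H := by
      have : (rk M H : ℤ) + (2 * t + 1) ≤ rk M (F1 ∪ H) + rk M (F2 ∪ H) := by exact_mod_cast hsub
      linarith
    have h2 : (t : ℤ) + 1 ≤ rk M H := by exact_mod_cast hr
    have h3 : (0 : ℤ) ≤ 2 * ((t : ℤ) + 1) := by positivity
    have h4 := mul_le_mul_of_nonneg_left h1 h3
    push_cast at hle
    nlinarith

lemma hard_ground {t : ℕ} {F1 F2 : Finset (Fin n)} {P} (h : Adm t F1 F2 P) :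
    (hardIM t F1 F2 P h).matroid.E = Set.univ := by
  unfold hardIM
  rfl

end Matroid

namespace QueryAlg

variable {Q A Out : Type}

/-- The list of questions asked when the oracle answers according to `f`. -/
def asked : QueryAlg Q A Out → (Q → A) → List Q
  | output _, _ => []
  | query q next, f => q :: (next (f q)).asked f

lemma asked_length (a : QueryAlg Q A Out) (f : Q → A) : (a.asked f).length = a.calls f := by
  induction a with
  | output o => rfl
  | query q next ih => simp [asked, calls, ih]

lemma run_congr (a : QueryAlg Q A Out) (f g : Q → A) (h : ∀ q ∈ a.asked f, f q = g q) :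
    a.run f = a.run g := by
  induction a with
  | output o => rfl
  | query q next ih =>
    simp only [asked, List.mem_cons, forall_eq_or_imp] at h
    simp only [run]
    rw [← h.1]
    exact ih _ h.2

end QueryAlg

/-- The quantitative lower bound. -/
theorem lower_bound (alg : MedianAlg) (hs : Solves alg) (t : ℕ) (ht : 1 ≤ t) :
    ∃ (M : Matroid (Fin (3 * t + 1))) (F : List (Finset (Fin (3 * t + 1)))),
      M.E = Set.univ ∧ F.length = 2 * t + 3 ∧
      Nat.choose (2 * t) t ≤ (alg (3 * t + 1) F).calls (rk M) + 1 := by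
  classical
  set n := 3 * t + 1 with hn
  set F1 : Finset (Fin n) := Finset.univ.filter (fun i => i.val < 2 * t) with hF1
  set F2 : Finset (Fin n) := Finset.univ.filter (fun i => ¬ i.val < 2 * t) with hF2
  have hdisj : Disjoint F1 F2 := Finset.disjoint_filter_filter_not _ _ _
  have huniv : F1 ∪ F2 = Finset.univ := Finset.filter_union_filter_not_eq _ _
  have hc1 : F1.card = 2 * t := by
    rw [hF1, Fin.card_filter_val_lt]
    omega
  have hc2 : F2.card = t + 1 := by
    have := Finset.card_union_of_disjoint hdisj
    rw [huniv, Finset.card_univ, Fintype.card_fin] at this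
    omega
  have adm0 : Adm t F1 F2 (fun _ => False) :=
    ⟨hdisj, huniv, hc1, hc2, ht, fun _ _ h => h.elim, fun _ h => h.elim, fun _ h => h.elim,
      fun _ h => h.elim⟩
  have admA : ∀ A, A ⊆ F1 → A.card = t → Adm t F1 F2 (fun X => X = A ∪ F2) := by
    intro A hA hAc
    refine ⟨hdisj, huniv, hc1, hc2, ht, fun _ _ h h' => h.trans h'.symm, ?_, ?_, ?_⟩
    · rintro X rfl
      rw [Finset.card_union_of_disjoint (hdisj.mono_left hA)]; omega
    · rintro X rfl
      have : F2 ∩ F1 = ∅ := by
        rw [Finset.inter_comm]; exact Finset.disjoint_iff_inter_eq_empty.mp hdisj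
      rw [Finset.union_inter_distrib_right, this, Finset.union_empty,
        Finset.inter_eq_left.mpr hA, hAc]
    · rintro X rfl
      exact Finset.subset_union_right
  refine ⟨(hardIM t F1 F2 _ adm0).matroid, hardList t F1 F2, hard_ground adm0, ?_, ?_⟩
  · simp [hardList]; omega
  set f := rk (hardIM t F1 F2 _ adm0).matroid with hf
  set a := alg n (hardList t F1 F2) with ha
  -- every hidden set which is not the output must have been queried
  have hq : ∀ A ∈ (F1.powersetCard t).erase (a.run f), A ∪ F2 ∈ (a.asked f).toFinset := by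
    intro A hA
    rw [Finset.mem_erase, Finset.mem_powersetCard] at hA
    obtain ⟨hne, hA1, hAc⟩ := hA
    by_contra hnot
    rw [List.mem_toFinset] at hnot
    have hadm := admA A hA1 hAc
    have hagree : ∀ q ∈ a.asked f, f q = rk (hardIM t F1 F2 _ hadm).matroid q := by
      intro q hq
      have hqne : ¬ (q = A ∪ F2) := fun he => hnot (he ▸ hq)
      rw [hf, rk_of_not adm0 q (fun h => h), rk_of_not hadm q hqne]
    have hrun := a.run_congr f _ hagree
    have hsol := hs n _ (hard_ground hadm) (hardList t F1 F2)
    rw [← ha, ← hrun] at hsol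
    exact hne (solution_eq hadm hA1 hAc hsol).symm
  have hinj : Set.InjOn (fun A : Finset (Fin n) => A ∪ F2)
      ((F1.powersetCard t).erase (a.run f) : Set (Finset (Fin n))) := by
    intro A hA B hB hAB
    simp only [Finset.coe_erase, Set.mem_sdiff, Finset.mem_coe, Finset.mem_powersetCard] at hA hB
    have h2 : F2 ∩ F1 = ∅ := by
      rw [Finset.inter_comm]; exact Finset.disjoint_iff_inter_eq_empty.mp hdisj
    have h3 : (A ∪ F2) ∩ F1 = (B ∪ F2) ∩ F1 := by
      have : A ∪ F2 = B ∪ F2 := hAB
      rw [this]
    rw [Finset.union_inter_distrib_right, Finset.union_inter_distrib_right, h2,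
      Finset.union_empty, Finset.union_empty, Finset.inter_eq_left.mpr hA.1.1,
      Finset.inter_eq_left.mpr hB.1.1] at h3
    exact h3
  have hcard := Finset.card_le_card_of_injOn _ hq hinj
  have h1 : (a.asked f).toFinset.card ≤ a.calls f := by
    rw [← a.asked_length f]
    exact List.toFinset_card_le _
  have h2 : (F1.powersetCard t).card = Nat.choose (2 * t) t := by
    rw [Finset.card_powersetCard, hc1]
  have h3 := Finset.pred_card_le_card_erase (s := F1.powersetCard t) (a := a.run f)
  omega

/-- `2^t ≤ C(2t, t)`. -/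
lemma two_pow_le_choose (t : ℕ) : 2 ^ t ≤ Nat.choose (2 * t) t := by
  induction t with
  | zero => simp
  | succ t ih =>
    have h := Nat.succ_mul_centralBinom_succ t
    unfold Nat.centralBinom at h
    have h2 : (t + 1) * (2 * Nat.choose (2 * t) t) ≤ (t + 1) * Nat.choose (2 * (t + 1)) (t + 1) := by
      rw [h]
      nlinarith [Nat.zero_le (Nat.choose (2 * t) t)]
    have h3 := Nat.le_of_mul_le_mul_left h2 (by omega)
    rw [pow_succ]
    omega

lemma poly_lt_exp (p : Polynomial ℕ) : ∃ t : ℕ, 1 ≤ t ∧ p.eval (5 * t + 4) + 1 < 2 ^ t := by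
  -- `p.eval x ≤ (p.eval 1) * x ^ d` for `x ≥ 1`
  have hb : ∀ x : ℕ, 1 ≤ x → p.eval x ≤ p.eval 1 * x ^ p.natDegree := by
    intro x hx
    rw [Polynomial.eval_eq_sum_range, Polynomial.eval_eq_sum_range, Finset.sum_mul]
    apply Finset.sum_le_sum
    intro i hi
    rw [Finset.mem_range] at hi
    have : x ^ i ≤ x ^ p.natDegree := Nat.pow_le_pow_right hx (by omega)
    simpa using Nat.mul_le_mul_left (p.coeff i) this
  set c := p.eval 1 with hc
  set d := p.natDegree with hd
  have ht : Filter.Tendsto (fun t : ℕ => (t : ℝ) ^ (d + 1) / (2 : ℝ) ^ t) Filter.atTop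
      (nhds 0) := tendsto_pow_const_div_const_pow_of_one_lt (d + 1) (by norm_num)
  have hev := ht.eventually (gt_mem_nhds (show (0 : ℝ) < 1 by norm_num))
  obtain ⟨N, hN⟩ := Filter.eventually_atTop.mp hev
  refine ⟨N + (c * 9 ^ d + 2) + 1, by omega, ?_⟩
  set t := N + (c * 9 ^ d + 2) + 1 with htdef
  have h1 := hN t (by omega)
  rw [div_lt_one (by positivity)] at h1
  have h2 : t ^ (d + 1) < 2 ^ t := by exact_mod_cast h1
  have h3 := hb (5 * t + 4) (by omega)
  have h4 : (5 * t + 4) ^ d ≤ (9 * t) ^ d := Nat.pow_le_pow_left (by omega) d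
  have h5 : c * (5 * t + 4) ^ d + 1 ≤ t ^ (d + 1) := by
    calc c * (5 * t + 4) ^ d + 1 ≤ c * (9 * t) ^ d + 1 :=
          Nat.add_le_add_right (Nat.mul_le_mul_left c h4) 1
      _ = (c * 9 ^ d) * t ^ d + 1 := by rw [mul_pow]; ring
      _ ≤ (c * 9 ^ d) * t ^ d + t ^ d := by
          have : 1 ≤ t ^ d := Nat.one_le_pow _ _ (by omega)
          omega
      _ = (c * 9 ^ d + 1) * t ^ d := by ring
      _ ≤ t * t ^ d := Nat.mul_le_mul_right _ (by omega)
      _ = t ^ (d + 1) := by ring
  omega

/-- **The matroid median problem is not solvable with polynomially many rank-oracle calls.**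
For every algorithm (adaptive, deterministic, with unlimited computational power) that solves
the matroid median problem for all matroids given by a rank oracle:
* for every `t ≥ 1` there is an instance with `|S| = 3t+1` and `k = 2t+3` on which it makes at
  least `2^t - 1` oracle calls;
* hence its number of oracle calls is not bounded by any polynomial in `|S| + k`. -/
theorem result :
    (∀ alg : MedianAlg, Solves alg → ∀ t : ℕ, 1 ≤ t →
      ∃ (M : Matroid (Fin (3 * t + 1))) (F : List (Finset (Fin (3 * t + 1)))),
        M.E = Set.univ ∧ F.length = 2 * t + 3 ∧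
        2 ^ t ≤ (alg (3 * t + 1) F).calls (rk M) + 1) ∧
    ¬ ∃ (alg : MedianAlg) (p : Polynomial ℕ), Solves alg ∧
      ∀ (n : ℕ) (M : Matroid (Fin n)), M.E = Set.univ → ∀ F : List (Finset (Fin n)),
        (alg n F).calls (rk M) ≤ p.eval (n + F.length) := by
  have main : ∀ alg : MedianAlg, Solves alg → ∀ t : ℕ, 1 ≤ t →
      ∃ (M : Matroid (Fin (3 * t + 1))) (F : List (Finset (Fin (3 * t + 1)))),
        M.E = Set.univ ∧ F.length = 2 * t + 3 ∧
        2 ^ t ≤ (alg (3 * t + 1) F).calls (rk M) + 1 := by
    intro alg hs t ht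
    obtain ⟨M, F, h1, h2, h3⟩ := lower_bound alg hs t ht
    exact ⟨M, F, h1, h2, (two_pow_le_choose t).trans h3⟩
  refine ⟨main, ?_⟩
  rintro ⟨alg, p, hs, hp⟩
  obtain ⟨t, ht, hlt⟩ := poly_lt_exp p
  obtain ⟨M, F, h1, h2, h3⟩ := main alg hs t ht
  have h4 := hp _ M h1 F
  rw [h2] at h4
  have h5 : 3 * t + 1 + (2 * t + 3) = 5 * t + 4 := by omega
  rw [h5] at h4
  omega

end Pool.Agent.Results.MP_8f56b8_lc.ExponentialLowerBound
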